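import Pool.Agent.helper31.RLS.Spec

/-! Row PS: partial summation. -/

set_option autoImplicit false

namespace Pool.Agent.RLS

open Finset

theorem PS_int {ψ : ℝ → ℝ} {a b : ℝ} (hab : a ≤ b) (h : MonotoneOn ψ (Set.Icc a b)) :
    IntervalIntegrable ψ MeasureTheory.volume a b := by
  apply MonotoneOn.intervalIntegrable
  rw [Set.uIcc_of_le hab]
  exact h

theorem PS_le {ψ : ℝ → ℝ} {a b : ℝ} (hab : a ≤ b) (h : MonotoneOn ψ (Set.Icc a b)) :
    ∫ s in a..b, ψ s ≤ (b - a) * ψ b := by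
  have h1 : ∫ s in a..b, ψ s ≤ ∫ _ in a..b, ψ b := by
    refine intervalIntegral.integral_mono_on hab (PS_int hab h)
      (intervalIntegrable_const) fun s hs => ?_
    exact h hs (Set.right_mem_Icc.2 hab) hs.2
  rw [intervalIntegral.integral_const, smul_eq_mul] at h1
  exact h1

theorem PS_J (c x : ℕ → ℝ) (b ka et : ℝ) (ψ : ℝ → ℝ) (hka : 0 ≤ ka) :
    ∀ (n : ℕ) (P : Finset ℕ) (a : ℝ), P.card = n → a ≤ b → Set.InjOn x P →
    (∀ p ∈ P, 0 ≤ c p ∧ a ≤ x p ∧ x p ≤ b) →
    (∀ σ, a ≤ σ → σ ≤ b → ka * (b - σ) - et ≤ ∑ p ∈ P.filter (fun p => σ < x p), c p) →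
    ka * (b - a) - et ≤ ∑ p ∈ P, c p → MonotoneOn ψ (Set.Icc a b) →
    0 ≤ ∑ p ∈ P, c p * ψ (x p) - ka * (∫ s in a..b, ψ s) -
      ψ a * (∑ p ∈ P, c p - ka * (b - a)) + et * (ψ b - ψ a) := by
  intro n
  induction n with
  | zero =>
    intro P a hn hab _ _ _ hTot hψ
    have hP : P = ∅ := Finset.card_eq_zero.1 hn
    subst hP
    rw [Finset.sum_empty] at hTot ⊢
    rw [Finset.sum_empty]
    have h1 := mul_le_mul_of_nonneg_left (PS_le hab hψ) hka
    have h2 : ψ a ≤ ψ b := hψ (Set.left_mem_Icc.2 hab) (Set.right_mem_Icc.2 hab) hab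
    have h3 : 0 ≤ (et - ka * (b - a)) * (ψ b - ψ a) :=
      mul_nonneg (by linarith) (by linarith)
    nlinarith
  | succ n ih =>
    intro P a hn hab hinj hP hT hTot hψ
    have hne : P.Nonempty := Finset.card_pos.1 (by omega)
    obtain ⟨p₀, hp₀, hmin⟩ := Finset.exists_min_image P x hne
    obtain ⟨hc₀, hax, hxb⟩ := hP p₀ hp₀
    have hlt : ∀ p ∈ P.erase p₀, x p₀ < x p := by
      intro p hp
      obtain ⟨h1, h2⟩ := Finset.mem_erase.1 hp
      refine lt_of_le_of_ne (hmin p h2) fun h3 => h1 (hinj h2 hp₀ h3.symm)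
    have hfil : ∀ σ, x p₀ ≤ σ → (P.erase p₀).filter (fun p => σ < x p) =
        P.filter (fun p => σ < x p) := by
      intro σ hσ
      ext p
      simp only [Finset.mem_filter, Finset.mem_erase]
      constructor
      · rintro ⟨⟨-, h2⟩, h3⟩
        exact ⟨h2, h3⟩
      · rintro ⟨h2, h3⟩
        refine ⟨⟨?_, h2⟩, h3⟩
        rintro rfl
        exact absurd h3 (not_lt.2 hσ)
    have hfull : (P.erase p₀).filter (fun p => x p₀ < x p) = P.erase p₀ :=
      Finset.filter_true_of_mem hlt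
    have hsumc : ∑ p ∈ P, c p = c p₀ + ∑ p ∈ P.erase p₀, c p :=
      (Finset.add_sum_erase P c hp₀).symm
    have hsum : ∑ p ∈ P, c p * ψ (x p) = c p₀ * ψ (x p₀) + ∑ p ∈ P.erase p₀, c p * ψ (x p) :=
      (Finset.add_sum_erase P (fun p => c p * ψ (x p)) hp₀).symm
    have hψ' : MonotoneOn ψ (Set.Icc (x p₀) b) :=
      hψ.mono (Set.Icc_subset_Icc hax le_rfl)
    have hψ'' : MonotoneOn ψ (Set.Icc a (x p₀)) :=
      hψ.mono (Set.Icc_subset_Icc le_rfl hxb)
    have hJ := ih (P.erase p₀) (x p₀) (by rw [Finset.card_erase_of_mem hp₀]; omega) hxb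
      (hinj.mono (by exact_mod_cast Finset.erase_subset p₀ P))
      (fun p hp => ⟨(hP p (Finset.mem_of_mem_erase hp)).1, (hlt p hp).le,
        (hP p (Finset.mem_of_mem_erase hp)).2.2⟩)
      (fun σ h1 h2 => by rw [hfil σ h1]; exact hT σ (hax.trans h1) h2)
      (by
        have h1 := hT (x p₀) hax hxb
        rw [← hfil (x p₀) le_rfl, hfull] at h1
        exact h1)
      hψ'
    have hadd : ∫ s in a..b, ψ s = (∫ s in a..x p₀, ψ s) + ∫ s in x p₀..b, ψ s :=
      (intervalIntegral.integral_add_adjacent_intervals (PS_int hax hψ'')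
        (PS_int hxb hψ')).symm
    have h1 := mul_le_mul_of_nonneg_left (PS_le hax hψ'') hka
    have h2 : ψ a ≤ ψ (x p₀) := hψ (Set.left_mem_Icc.2 hab) ⟨hax, hxb⟩ hax
    have h3 : 0 ≤ (∑ p ∈ P, c p - ka * (b - a) + et) * (ψ (x p₀) - ψ a) :=
      mul_nonneg (by linarith) (by linarith)
    rw [hsum, hadd]
    rw [hsumc] at h3 ⊢
    nlinarith

theorem PS : PS_stmt := by
  intro P c x a b ka et ψ hab hka het hinj hP hT hTot hψ0
  have hT' : ∀ σ, a ≤ σ → σ ≤ b →
      ka * (b - σ) - et ≤ ∑ p ∈ P.filter (fun p => σ < x p), c p := by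
    intro σ h1 h2
    have := (abs_le.1 (hT σ h1 h2)).1
    linarith
  have hTot1 := (abs_le.1 hTot).1
  have hTot2 := (abs_le.1 hTot).2
  have ha0 := hψ0 a (Set.left_mem_Icc.2 hab)
  have hb0 := hψ0 b (Set.right_mem_Icc.2 hab)
  constructor
  · intro hψ
    have hJ := PS_J c x b ka et ψ hka _ P a rfl hab hinj hP hT' (by linarith) hψ
    have h1 : 0 ≤ (∑ p ∈ P, c p - ka * (b - a) + et) * ψ a := mul_nonneg (by linarith) ha0
    nlinarith
  · intro hψ
    have hmono : MonotoneOn (fun s => ψ a - ψ s) (Set.Icc a b) := by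
      intro s hs t ht hst
      have := hψ hs ht hst
      show ψ a - ψ s ≤ ψ a - ψ t
      linarith
    have hJ := PS_J c x b ka et (fun s => ψ a - ψ s) hka _ P a rfl hab hinj hP hT'
      (by linarith) hmono
    have hint : IntervalIntegrable ψ MeasureTheory.volume a b := by
      apply AntitoneOn.intervalIntegrable
      rw [Set.uIcc_of_le hab]
      exact hψ
    have h1 : ∫ s in a..b, (ψ a - ψ s) = (b - a) * ψ a - ∫ s in a..b, ψ s := by
      rw [intervalIntegral.integral_sub intervalIntegrable_const hint,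
        intervalIntegral.integral_const, smul_eq_mul]
    have h2 : ∑ p ∈ P, c p * (ψ a - ψ (x p)) = (∑ p ∈ P, c p) * ψ a -
        ∑ p ∈ P, c p * ψ (x p) := by
      rw [Finset.sum_mul, ← Finset.sum_sub_distrib]
      exact Finset.sum_congr rfl fun p _ => by ring
    rw [h1, h2] at hJ
    have h3 : 0 ≤ (et - (∑ p ∈ P, c p - ka * (b - a))) * ψ a := mul_nonneg (by linarith) ha0
    have h4 : 0 ≤ et * ψ b := mul_nonneg het hb0
    nlinarith

end Pool.Agent.RLS
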